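import Pool.Agent.Y371.SQ.Pack

set_option autoImplicit false

namespace Pool.Agent.Y371.SQ

open Metric

theorem sqrt3_bounds : (1.732 : ℝ) < √3 ∧ √3 < 1.733 ∧ √3 * √3 = 3 := by
  refine ⟨?_, ?_, Real.mul_self_sqrt (by norm_num)⟩
  · rw [Real.lt_sqrt (by norm_num)]; norm_num
  · rw [Real.sqrt_lt' (by norm_num)]; norm_num

/-- the choice of the packing -/
theorem choice {t : ℝ} (ht : 0 ≤ t) : ∃ (g h : ℝ) (q R : ℕ), 1 ≤ g ∧ 1 ≤ h ∧ 4 ≤ g ^ 2 + h ^ 2 ∧
    (q : ℝ) * g ≤ t ∧ (R : ℝ) * h ≤ t ∧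
      t ^ 2 + 2 / 3 * t - √3 ≤ √3 * (((q : ℝ) + 1) * ((R : ℝ) + 1)) := by
  obtain ⟨ha1, ha2, ha3⟩ := sqrt3_bounds
  set a : ℝ := √3 with ha
  have ha0 : 0 < a := by linarith
  set k : ℕ := ⌊t / a⌋₊ with hk
  set i : ℕ := ⌊t⌋₊ with hi
  have hi1 : (i : ℝ) ≤ t := Nat.floor_le ht
  have hi2 : t < i + 1 := Nat.lt_floor_add_one t
  have hk1 : (k : ℝ) * a ≤ t := by
    have := Nat.floor_le (show 0 ≤ t / a by positivity)
    rwa [le_div_iff₀ ha0] at this
  have hk2 : t < ((k : ℝ) + 1) * a := by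
    have := Nat.lt_floor_add_one (t / a)
    rwa [div_lt_iff₀ ha0] at this
  have hk0 : (0 : ℝ) ≤ k := by positivity
  obtain ⟨u, hu⟩ : ∃ u : ℝ, u = a * (k + 1) - t := ⟨_, rfl⟩
  obtain ⟨x, hx⟩ : ∃ x : ℝ, x = t - i := ⟨_, rfl⟩
  have hu0 : 0 < u := by rw [hu]; linarith
  have hx0 : 0 ≤ x := by rw [hx]; linarith
  have hx1 : x < 1 := by rw [hx]; linarith
  have hak : a * ((k : ℝ) + 1) = t + u := by rw [hu]; ring
  have hit : (i : ℝ) = t - x := by rw [hx]; ring
  by_cases hc : x ≤ u + 1 / 3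
  · refine ⟨1, a, i, k, le_rfl, by linarith, by nlinarith, by linarith, hk1, ?_⟩
    have e1 : a * (((i : ℝ) + 1) * ((k : ℝ) + 1)) = (t + 1 - x) * (t + u) := by
      rw [← hak, hit]; ring
    rw [e1]
    have h1 : 0 ≤ t * (u + 1 / 3 - x) := mul_nonneg ht (by linarith)
    have h2 : 0 ≤ u * (1 - x) := mul_nonneg hu0.le (by linarith)
    nlinarith
  · push Not at hc
    have hu1 : u < 2 / 3 := by linarith
    have hi0 : 1 ≤ i := by
      by_contra hlt
      have h0 : i = 0 := by omega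
      rw [h0] at hi2
      have : a ≤ a * ((k : ℝ) + 1) := by nlinarith
      have h3 : t < 1 := by simpa using hi2
      linarith
    have hk10 : (0 : ℝ) < (k : ℝ) + 1 := by linarith
    obtain ⟨e, he⟩ : ∃ e : ℝ, e = u / (k + 1) := ⟨_, rfl⟩
    have he0 : 0 < e := by rw [he]; positivity
    have hek : e * ((k : ℝ) + 1) = u := by rw [he]; field_simp
    have heu : e ≤ u := by nlinarith
    have hh : (t : ℝ) / (k + 1) = a - e := by
      rw [div_eq_iff hk10.ne']
      linear_combination (-1) * hak + hek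
    refine ⟨1 + a * e, a - e, i - 1, k + 1, ?_, ?_, ?_, ?_, ?_, ?_⟩
    · have : 0 < a * e := by positivity
      linarith
    · linarith
    · have : (1 + a * e) ^ 2 + (a - e) ^ 2 = 1 + (a * a) + (a * a) * e ^ 2 + e ^ 2 := by ring
      rw [this, ha3]
      nlinarith [sq_nonneg e]
    · rw [Nat.cast_sub hi0, Nat.cast_one]
      have h1 : ((i : ℝ) - 1) * (a * e) ≤ (a * ((k : ℝ) + 1)) * (a * e) := by
        apply mul_le_mul_of_nonneg_right _ (by positivity)
        rw [hak]; linarith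
      have h2 : (a * ((k : ℝ) + 1)) * (a * e) = 3 * u := by
        rw [← hek]
        linear_combination (e * ((k : ℝ) + 1)) * ha3
      have h3 : ((i : ℝ) - 1) * (1 + a * e) = ((i : ℝ) - 1) + ((i : ℝ) - 1) * (a * e) := by ring
      rw [h3]
      have : 3 * u ≤ 1 + x := by linarith
      linarith
    · rw [← hh]
      push_cast
      field_simp
      exact le_rfl
    · rw [Nat.cast_sub hi0]
      push_cast
      have e1 : a * (((i : ℝ) - 1 + 1) * ((k : ℝ) + 1 + 1)) = (t - x) * (t + u + a) := by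
        rw [show t + u + a = a * ((k : ℝ) + 1) + a by rw [hak], hit]; ring
      rw [e1]
      have h1 : 0 ≤ (a - x - 2 / 3) * t := mul_nonneg (by linarith) ht
      have h2 : 0 ≤ u * (t - x) := mul_nonneg hu0.le (by rw [← hit]; positivity)
      have h3 : 0 ≤ a * (1 - x) := mul_nonneg ha0.le (by linarith)
      nlinarith

theorem fits_many {t : ℝ} (ht : 0 ≤ t) : ∃ N : ℕ, Fits N (t + 2) ∧
    t ^ 2 + 2 / 3 * t - √3 ≤ 2 * √3 * N := by
  obtain ⟨g, h, q, R, hg, hh, hgh, hq, hR, hb⟩ := choice ht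
  refine ⟨((q + 1) * (R + 1) + 1) / 2, fits_hex hg hh hgh hq hR (by omega), hb.trans ?_⟩
  have h1 : (q + 1) * (R + 1) ≤ 2 * (((q + 1) * (R + 1) + 1) / 2) := by omega
  have h2 : (((q : ℝ) + 1) * ((R : ℝ) + 1)) ≤ 2 * ((((q + 1) * (R + 1) + 1) / 2 : ℕ) : ℝ) := by
    exact_mod_cast h1
  have h3 : 0 ≤ √(3 : ℝ) := Real.sqrt_nonneg 3
  nlinarith

theorem nonempty_fits (n : ℕ) : {s | Fits n s}.Nonempty := ⟨4 * n + 2, two_disc n le_rfl⟩

/-- the least side length is attained -/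
theorem isLeast_side {n : ℕ} (hn : 1 ≤ n) : IsLeast {s | Fits n s} (side n) := by
  classical
  obtain ⟨s0, hs0⟩ := nonempty_fits n
  have hs02 : 2 ≤ s0 := two_le_of_fits hn hs0
  -- compactness
  let K : Set (ℝ × (Fin n → V)) := {z | (2 ≤ z.1 ∧ z.1 ≤ s0) ∧
    (∀ i j, 1 ≤ z.2 i j ∧ z.2 i j ≤ z.1 - 1) ∧ ∀ i j, i ≠ j → 2 ≤ dist (z.2 i) (z.2 j)}
  have hclosed : IsClosed K := by
    have c1 : IsClosed {z : ℝ × (Fin n → V) | 2 ≤ z.1 ∧ z.1 ≤ s0} :=
      (isClosed_le continuous_const continuous_fst).inter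
        (isClosed_le continuous_fst continuous_const)
    have cont : ∀ i : Fin n, ∀ j : Fin 2, Continuous fun z : ℝ × (Fin n → V) => z.2 i j := by
      intro i j
      have h1 : Continuous fun z : ℝ × (Fin n → V) => z.2 i :=
        (continuous_apply i).comp continuous_snd
      exact (EuclideanSpace.proj j).continuous.comp h1
    have c2 : IsClosed {z : ℝ × (Fin n → V) | ∀ i j, 1 ≤ z.2 i j ∧ z.2 i j ≤ z.1 - 1} := by
      simp only [Set.setOf_forall]
      refine isClosed_iInter fun i => isClosed_iInter fun j => ?_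
      exact (isClosed_le continuous_const (cont i j)).inter
        (isClosed_le (cont i j) (continuous_fst.sub continuous_const))
    have c3 : IsClosed {z : ℝ × (Fin n → V) | ∀ i j, i ≠ j → 2 ≤ dist (z.2 i) (z.2 j)} := by
      simp only [Set.setOf_forall]
      refine isClosed_iInter fun i => isClosed_iInter fun j => isClosed_iInter fun _ => ?_
      exact isClosed_le continuous_const
        (((continuous_apply i).comp continuous_snd).dist ((continuous_apply j).comp continuous_snd))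
    exact c1.inter (c2.inter c3)
  have hbdd : Bornology.IsBounded K := by
    have hsub : K ⊆ (Set.Icc 2 s0) ×ˢ (Set.univ.pi fun _ : Fin n => closedBall (0 : V) (2 * s0)) := by
      rintro ⟨s, c⟩ ⟨h1, h2, -⟩
      refine ⟨h1, fun i _ => ?_⟩
      rw [mem_closedBall, dist_zero_right]
      have h3 := h2 i 0
      have h4 := h2 i 1
      simp only at h1 h3 h4
      rw [EuclideanSpace.norm_eq, Real.sqrt_le_left (by linarith), Fin.sum_univ_two]
      simp only [Real.norm_eq_abs, sq_abs]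
      nlinarith [h3.1, h3.2, h4.1, h4.2, h1.2]
    refine Bornology.IsBounded.subset ?_ hsub
    exact (Metric.isBounded_Icc _ _).prod (Bornology.IsBounded.pi fun _ => isBounded_closedBall)
  have hK : IsCompact K := Metric.isCompact_of_isClosed_isBounded hclosed hbdd
  have hKne : (Prod.fst '' K).Nonempty := by
    obtain ⟨c, h1, h2⟩ := fits_iff.1 hs0
    exact ⟨s0, (s0, c), ⟨⟨hs02, le_rfl⟩, h1, h2⟩, rfl⟩
  obtain ⟨m, hm⟩ := (hK.image continuous_fst).exists_isLeast hKne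
  have hmle : IsLeast {s | Fits n s} m := by
    obtain ⟨⟨s, c⟩, ⟨h1, h2, h3⟩, hsm⟩ := hm.1
    simp only at hsm h1 h2 h3
    subst hsm
    refine ⟨fits_iff.2 ⟨c, h2, h3⟩, ?_⟩
    intro s' hs'
    rcases le_total s' s0 with hle | hle
    · obtain ⟨c', h1', h2'⟩ := fits_iff.1 hs'
      exact hm.2 ⟨(s', c'), ⟨⟨two_le_of_fits hn hs', hle⟩, h1', h2'⟩, rfl⟩
    · exact h1.2.trans hle
  have : side n = m := hmle.csInf_eq
  rw [this]
  exact hmle

theorem bddBelow_fits {n : ℕ} (hn : 1 ≤ n) : BddBelow {s | Fits n s} :=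
  ⟨2, fun _ h => two_le_of_fits hn h⟩

theorem main_bound {n : ℕ} (hn : 1 ≤ n) :
    (side n - 2) ^ 2 + 2 / 3 * (side n - 2) + √3 ≤ √12 * n := by
  have h12 : √(12 : ℝ) = 2 * √3 := by
    rw [show (12 : ℝ) = 2 ^ 2 * 3 by norm_num, Real.sqrt_mul (by norm_num),
      Real.sqrt_sq (by norm_num)]
  have hs2 : 2 ≤ side n := two_le_of_fits hn (isLeast_side hn).1
  rw [h12]
  obtain ⟨ha1, ha2, ha3⟩ := sqrt3_bounds
  -- the bound for all smaller squares
  have key : ∀ t : ℝ, 0 ≤ t → t < side n - 2 → t ^ 2 + 2 / 3 * t - √3 ≤ 2 * √3 * ((n : ℝ) - 1) := by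
    intro t ht hlt
    obtain ⟨N, hN, hb⟩ := fits_many ht
    have hNn : N < n := by
      by_contra hge
      push Not at hge
      have := (isLeast_side hn).2 (hN.mono hge)
      linarith
    have h2 : (N : ℝ) ≤ n - 1 := by
      have : N + 1 ≤ n := hNn
      have : ((N + 1 : ℕ) : ℝ) ≤ n := by exact_mod_cast this
      push_cast at this
      linarith
    nlinarith
  rcases hs2.eq_or_lt with heq | hlt
  · rw [← heq]
    have : (1 : ℝ) ≤ n := by exact_mod_cast hn
    nlinarith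
  · have hT : 0 < side n - 2 := by linarith
    have hcont : Filter.Tendsto (fun t : ℝ => t ^ 2 + 2 / 3 * t - √3)
        (nhdsWithin (side n - 2) (Set.Iio (side n - 2)))
        (nhds ((side n - 2) ^ 2 + 2 / 3 * (side n - 2) - √3)) := by
      have : Continuous fun t : ℝ => t ^ 2 + 2 / 3 * t - √3 := by fun_prop
      exact this.continuousAt.tendsto.mono_left nhdsWithin_le_nhds
    have hev : ∀ᶠ t in nhdsWithin (side n - 2) (Set.Iio (side n - 2)),
        t ^ 2 + 2 / 3 * t - √3 ≤ 2 * √3 * ((n : ℝ) - 1) := by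
      have h1 : ∀ᶠ t in nhdsWithin (side n - 2) (Set.Iio (side n - 2)), 0 < t :=
        (eventually_gt_nhds hT).filter_mono nhdsWithin_le_nhds
      filter_upwards [h1, self_mem_nhdsWithin] with t ht0 ht1
      exact key t ht0.le ht1
    have := le_of_tendsto hcont hev
    linarith

theorem side_large {n : ℕ} (hn : 1 ≤ n) {S : ℝ} (hS : side n ≤ S) : n ≤ (⌊S⌋₊ + 1) ^ 2 :=
  (card_le (isLeast_side hn).1).trans (Nat.pow_le_pow_left (Nat.succ_le_succ
    (Nat.floor_le_floor hS)) 2)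

end Pool.Agent.Y371.SQ
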