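import Mathlib

set_option autoImplicit false

namespace Pool.Agent.Y371.SQ

open Metric

abbrev V := EuclideanSpace ℝ (Fin 2)

/-- The square `[0, s] × [0, s]`. -/
def square (s : ℝ) : Set V := {x | ∀ i, 0 ≤ x i ∧ x i ≤ s}

/-- The square of side length `s` contains `n` unit discs with pairwise disjoint interiors. -/
def Fits (n : ℕ) (s : ℝ) : Prop :=
  ∃ c : Fin n → V, (∀ i, closedBall (c i) 1 ⊆ square s) ∧
    ∀ i j, i ≠ j → Disjoint (interior (closedBall (c i) 1)) (interior (closedBall (c j) 1))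

/-- The least side length of a square which contains `n` nonoverlapping unit discs. -/
noncomputable def side (n : ℕ) : ℝ := sInf {s | Fits n s}

theorem ball_sub {c : V} {s : ℝ} :
    closedBall c 1 ⊆ square s ↔ ∀ i, 1 ≤ c i ∧ c i ≤ s - 1 := by
  constructor
  · intro h i
    have h1 : c + EuclideanSpace.single i (1 : ℝ) ∈ closedBall c 1 := by
      rw [mem_closedBall, dist_eq_norm, add_sub_cancel_left]
      simp
    have h2 : c - EuclideanSpace.single i (1 : ℝ) ∈ closedBall c 1 := by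
      rw [mem_closedBall, dist_eq_norm, sub_sub_cancel_left, norm_neg]
      simp
    have h3 := (h h1 i).2
    have h4 := (h h2 i).1
    simp at h3 h4
    constructor <;> linarith
  · intro h x hx i
    have h1 : |x i - c i| ≤ 1 := by
      have h2 : ‖(x - c) i‖ ≤ ‖x - c‖ := PiLp.norm_apply_le _ _
      rw [mem_closedBall, dist_eq_norm] at hx
      have h3 : ‖(x - c) i‖ ≤ 1 := h2.trans hx
      simpa [Real.norm_eq_abs] using h3
    have h2 := abs_le.1 h1
    have h3 := h i
    constructor <;> linarith [h2.1, h2.2, h3.1, h3.2]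

theorem fits_iff {n : ℕ} {s : ℝ} :
    Fits n s ↔ ∃ c : Fin n → V, (∀ i j, 1 ≤ c i j ∧ c i j ≤ s - 1) ∧
      ∀ i j, i ≠ j → 2 ≤ dist (c i) (c j) := by
  unfold Fits
  refine exists_congr fun c => and_congr (forall_congr' fun i => ball_sub) ?_
  refine forall_congr' fun i => forall_congr' fun j => imp_congr_right fun _ => ?_
  rw [interior_closedBall _ one_ne_zero, interior_closedBall _ one_ne_zero,
    disjoint_ball_ball_iff one_pos one_pos]
  norm_num

theorem Fits.mono {n m : ℕ} {s : ℝ} (h : Fits m s) (hnm : n ≤ m) : Fits n s := by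
  obtain ⟨c, h1, h2⟩ := h
  exact ⟨fun i => c (Fin.castLE hnm i), fun i => h1 _, fun i j hij => h2 _ _ fun h =>
    hij (Fin.castLE_injective hnm h)⟩

theorem two_le_of_fits {n : ℕ} {s : ℝ} (hn : 1 ≤ n) (h : Fits n s) : 2 ≤ s := by
  obtain ⟨c, h1, -⟩ := fits_iff.1 h
  have := h1 ⟨0, hn⟩ 0
  linarith [this.1, this.2]

theorem dist_sq (x y : V) : dist x y ^ 2 = (x 0 - y 0) ^ 2 + (x 1 - y 1) ^ 2 := by
  rw [EuclideanSpace.dist_eq, Real.sq_sqrt (by positivity), Fin.sum_univ_two]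
  simp [Real.dist_eq, sq_abs]

theorem int_key {x y : ℤ} (hp : (x + y) % 2 = 0) (hne : ¬ (x = 0 ∧ y = 0)) {g h : ℝ}
    (hg : 1 ≤ g) (hh : 1 ≤ h) (hgh : 4 ≤ g ^ 2 + h ^ 2) :
    4 ≤ (x : ℝ) ^ 2 * g ^ 2 + (y : ℝ) ^ 2 * h ^ 2 := by
  have hg2 : 1 ≤ g ^ 2 := by nlinarith
  have hh2 : 1 ≤ h ^ 2 := by nlinarith
  have c1 : (0 : ℝ) ≤ (x : ℝ) ^ 2 := by positivity
  have c2 : (0 : ℝ) ≤ (y : ℝ) ^ 2 := by positivity
  have big : ∀ z : ℤ, (2 ≤ z ∨ z ≤ -2) → (4 : ℝ) ≤ (z : ℝ) ^ 2 := by
    intro z hz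
    have h4 : (4 : ℤ) ≤ z ^ 2 := by
      rcases hz with hz | hz <;> nlinarith
    exact_mod_cast h4
  have one : ∀ z : ℤ, (1 ≤ z ∨ z ≤ -1) → (1 : ℝ) ≤ (z : ℝ) ^ 2 := by
    intro z hz
    have h4 : (1 : ℤ) ≤ z ^ 2 := by
      rcases hz with hz | hz <;> nlinarith
    exact_mod_cast h4
  by_cases hy0 : y = 0
  · have := big x (by omega)
    nlinarith
  · by_cases hy : 2 ≤ y ∨ y ≤ -2
    · have := big y hy
      nlinarith
    · have h1 := one x (by omega)
      have h2 := one y (by omega)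
      nlinarith

theorem card_even (q R : ℕ) : (q + 1) * (R + 1) ≤
    2 * (((Finset.range (q + 1)) ×ˢ (Finset.range (R + 1))).filter
      fun z : ℕ × ℕ => (z.1 + z.2) % 2 = 0).card := by
  classical
  set P : Finset (ℕ × ℕ) := (Finset.range (q + 1)) ×ˢ (Finset.range (R + 1)) with hP
  have hc : (P.filter fun z : ℕ × ℕ => (z.1 + z.2) % 2 = 0).card +
      (P.filter fun z : ℕ × ℕ => ¬ (z.1 + z.2) % 2 = 0).card = (q + 1) * (R + 1) := by
    rw [Finset.card_filter_add_card_filter_not, hP, Finset.card_product, Finset.card_range,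
      Finset.card_range]
  have hle : (P.filter fun z : ℕ × ℕ => ¬ (z.1 + z.2) % 2 = 0).card ≤
      (P.filter fun z : ℕ × ℕ => (z.1 + z.2) % 2 = 0).card := by
    rcases Nat.even_or_odd q with hq | hq
    · have hq2 : q % 2 = 0 := Nat.even_iff.1 hq
      refine Finset.card_le_card_of_injOn
        (fun z => if 1 ≤ z.1 then (z.1 - 1, z.2) else (q, z.2 - 1)) ?_ ?_
      · rintro ⟨a, b⟩ hz
        simp only [Finset.coe_filter, Set.mem_setOf_eq, hP, Finset.mem_product,
          Finset.mem_range] at hz ⊢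
        split_ifs with h1
        · refine ⟨⟨?_, ?_⟩, ?_⟩ <;> simp <;> omega
        · refine ⟨⟨?_, ?_⟩, ?_⟩ <;> simp <;> omega
      · rintro ⟨a, b⟩ hz ⟨a', b'⟩ hz' he
        simp only [Finset.coe_filter, Set.mem_setOf_eq, hP, Finset.mem_product,
          Finset.mem_range] at hz hz' he
        split_ifs at he with h1 h2 h2 <;> simp only [Prod.mk.injEq] at he ⊢ <;> omega
    · have hq2 : q % 2 = 1 := Nat.odd_iff.1 hq
      refine Finset.card_le_card_of_injOn
        (fun z => if z.1 % 2 = 0 then (z.1 + 1, z.2) else (z.1 - 1, z.2)) ?_ ?_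
      · rintro ⟨a, b⟩ hz
        simp only [Finset.coe_filter, Set.mem_setOf_eq, hP, Finset.mem_product,
          Finset.mem_range] at hz ⊢
        split_ifs with h1
        · refine ⟨⟨?_, ?_⟩, ?_⟩ <;> simp <;> omega
        · refine ⟨⟨?_, ?_⟩, ?_⟩ <;> simp <;> omega
      · rintro ⟨a, b⟩ hz ⟨a', b'⟩ hz' he
        simp only [Finset.coe_filter, Set.mem_setOf_eq, hP, Finset.mem_product,
          Finset.mem_range] at hz hz' he
        split_ifs at he with h1 h2 h2 <;> simp only [Prod.mk.injEq] at he ⊢ <;> omega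
  omega

/-- hexagonal packings with rows at distance `h` and half step `g` -/
theorem fits_hex {t g h : ℝ} {q R N : ℕ} (hg : 1 ≤ g) (hh : 1 ≤ h) (hgh : 4 ≤ g ^ 2 + h ^ 2)
    (hq : (q : ℝ) * g ≤ t) (hR : (R : ℝ) * h ≤ t) (hN : 2 * N ≤ (q + 1) * (R + 1) + 1) :
    Fits N (t + 2) := by
  classical
  let A : Finset (ℕ × ℕ) := ((Finset.range (q + 1)) ×ˢ (Finset.range (R + 1))).filter
    fun z => (z.1 + z.2) % 2 = 0
  have hA : N ≤ A.card := by
    have := card_even q R
    change (q + 1) * (R + 1) ≤ 2 * A.card at this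
    omega
  obtain ⟨e⟩ : Nonempty (Fin N ↪ A) := by
    rw [Function.Embedding.nonempty_iff_card_le]
    simpa using hA
  rw [fits_iff]
  refine ⟨fun i => !₂[1 + ((e i : ℕ × ℕ).1 : ℝ) * g, 1 + ((e i : ℕ × ℕ).2 : ℝ) * h], ?_, ?_⟩
  · intro i j
    have hm := Finset.mem_filter.1 (e i).2
    have h1 := (Finset.mem_product.1 hm.1).1
    have h2 := (Finset.mem_product.1 hm.1).2
    rw [Finset.mem_range] at h1 h2
    have h3 : ((e i : ℕ × ℕ).1 : ℝ) ≤ q := by exact_mod_cast Nat.lt_succ_iff.1 h1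
    have h4 : ((e i : ℕ × ℕ).2 : ℝ) ≤ R := by exact_mod_cast Nat.lt_succ_iff.1 h2
    have h5 : (0 : ℝ) ≤ ((e i : ℕ × ℕ).1 : ℝ) := by positivity
    have h6 : (0 : ℝ) ≤ ((e i : ℕ × ℕ).2 : ℝ) := by positivity
    have hj : j = 0 ∨ j = 1 := by fin_cases j <;> simp
    rcases hj with rfl | rfl
    · simp
      constructor
      · positivity
      · nlinarith
    · simp
      constructor
      · positivity
      · nlinarith
  · intro i j hij
    have hne : (e i : ℕ × ℕ) ≠ (e j : ℕ × ℕ) := fun hc => hij (e.injective (Subtype.ext hc))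
    have hp1 := (Finset.mem_filter.1 (e i).2).2
    have hp2 := (Finset.mem_filter.1 (e j).2).2
    have key := int_key (x := ((e i : ℕ × ℕ).1 : ℤ) - ((e j : ℕ × ℕ).1 : ℤ))
      (y := ((e i : ℕ × ℕ).2 : ℤ) - ((e j : ℕ × ℕ).2 : ℤ)) (by omega) (by
        rintro ⟨h1, h2⟩
        exact hne (Prod.ext (by omega) (by omega))) hg hh hgh
    refine (abs_le_of_sq_le_sq' ?_ dist_nonneg).2
    rw [dist_sq]
    push_cast at key
    have e1 : (2 : ℝ) ^ 2 = 4 := by norm_num
    rw [e1]
    refine key.trans (le_of_eq ?_)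
    simp
    ring

theorem two_disc {t : ℝ} (n : ℕ) (ht : 4 * (n : ℝ) ≤ t) : Fits n (t + 2) := by
  refine fits_hex (g := 2) (h := 2) (q := 2 * n) (R := 0) (by norm_num) (by norm_num)
    (by norm_num) ?_ ?_ ?_
  · push_cast; linarith
  · have : (0 : ℝ) ≤ n := by positivity
    push_cast; linarith
  · omega

/-- the number of discs grows with the square -/
theorem card_le {n : ℕ} {s : ℝ} (h : Fits n s) : n ≤ (⌊s⌋₊ + 1) ^ 2 := by
  classical
  obtain ⟨c, h1, h2⟩ := fits_iff.1 h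
  have hinj : Function.Injective fun i : Fin n =>
      ((⟨⌊c i 0⌋₊, by
        have := h1 i 0
        exact Nat.lt_succ_of_le (Nat.floor_le_floor (by linarith [this.2]))⟩,
        ⟨⌊c i 1⌋₊, by
        have := h1 i 1
        exact Nat.lt_succ_of_le (Nat.floor_le_floor (by linarith [this.2]))⟩) :
        Fin (⌊s⌋₊ + 1) × Fin (⌊s⌋₊ + 1)) := by
    intro i j hij
    by_contra hne
    have h3 := h2 i j hne
    simp only [Prod.mk.injEq, Fin.mk.injEq] at hij
    have hb : ∀ k : Fin 2, ⌊c i k⌋₊ = ⌊c j k⌋₊ → |c i k - c j k| ≤ 1 := by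
      intro k hk
      have a1 := Nat.floor_le (show 0 ≤ c i k by linarith [(h1 i k).1])
      have a2 := Nat.lt_floor_add_one (c i k)
      have b1 := Nat.floor_le (show 0 ≤ c j k by linarith [(h1 j k).1])
      have b2 := Nat.lt_floor_add_one (c j k)
      rw [hk] at a1 a2
      rw [abs_le]
      constructor <;> linarith
    have h4 := hb 0 hij.1
    have h5 := hb 1 hij.2
    have h6 : dist (c i) (c j) ^ 2 ≤ 2 := by
      rw [dist_sq]
      have := (sq_le_one_iff_abs_le_one (c i 0 - c j 0)).2 h4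
      have := (sq_le_one_iff_abs_le_one (c i 1 - c j 1)).2 h5
      linarith
    nlinarith
  have := Fintype.card_le_of_injective _ hinj
  simpa [sq] using this

end Pool.Agent.Y371.SQ
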